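import Pool.Graph.R_pool_sql_team_seeded_2aa45f1a.Results.MP_e0aac0_nt.ArbitraryEvents

set_option autoImplicit false

/-! Shifts of functions of `Ω` which are nearly independent of a given state, at most scales. -/

namespace Pool.Agent.H616.Om
open Finset Filter Topology
open Pool.Agent.Results.MP_e0aac0_nt.ArbitraryEvents (mean variance logCount LogDensityZero Good e)

/-- `Ω` -/
abbrev om (n : ℕ) : ℕ := Pool.Agent.Results.MP_e0aac0_nt.ArbitraryEvents.Om n

/-- harmonic numbers -/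
noncomputable def hn (X : ℕ) : ℝ := ∑ N ∈ Icc 1 X, (1 : ℝ) / N

lemma hn_succ (X : ℕ) : hn (X + 1) = hn X + 1 / ((X + 1 : ℕ) : ℝ) := by
  unfold hn
  rw [Finset.sum_Icc_succ_top (by omega)]

lemma hn_eq (X : ℕ) : hn X = ((harmonic X : ℚ) : ℝ) := by
  induction X with
  | zero => simp [hn]
  | succ X ih =>
    rw [hn_succ, harmonic_succ, ih]
    push_cast
    rw [one_div]

lemma log_le_hn (X : ℕ) : Real.log X ≤ hn X := by
  rw [hn_eq]
  rcases Nat.eq_zero_or_pos X with h | h
  · subst h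
    simp
  · refine le_trans ?_ (log_add_one_le_harmonic X)
    apply Real.log_le_log
    · exact_mod_cast h
    · push_cast
      linarith

lemma hn_le (X : ℕ) : hn X ≤ 1 + Real.log X := by
  rw [hn_eq]
  exact harmonic_le_one_add_log X

lemma logCount_univ (X : ℕ) : logCount Set.univ X = hn X := by
  unfold logCount hn
  apply sum_congr rfl
  intro N _
  rw [if_pos (Set.mem_univ N)]

lemma logCount_mono {S T : Set ℕ} (X : ℕ) (h : ∀ N ∈ S, 1 ≤ N → N ≤ X → N ∈ T) : logCount S X ≤ logCount T X := by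
  unfold logCount
  apply sum_le_sum
  intro N hN
  rw [mem_Icc] at hN
  by_cases hS : N ∈ S
  · rw [if_pos hS, if_pos (h N hS hN.1 hN.2)]
  · rw [if_neg hS]
    split_ifs
    · positivity
    · exact le_rfl

lemma logCount_nonneg (S : Set ℕ) (X : ℕ) : 0 ≤ logCount S X := by
  unfold logCount
  apply sum_nonneg
  intro N _
  split_ifs
  · positivity
  · exact le_rfl

lemma logCount_diff (S T : Set ℕ) (X : ℕ) : logCount S X - logCount T X ≤ logCount (S \ T) X := by
  unfold logCount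
  rw [← sum_sub_distrib]
  apply sum_le_sum
  intro N _
  by_cases hS : N ∈ S
  · by_cases hT : N ∈ T
    · rw [if_pos hS, if_pos hT, if_neg (fun h => h.2 hT), sub_self]
    · rw [if_pos hS, if_neg hT, if_pos ⟨hS, hT⟩, sub_zero]
  · rw [if_neg hS, if_neg (show N ∉ S \ T from fun h => hS h.1)]
    split_ifs
    · have : (0 : ℝ) ≤ 1 / N := by positivity
      linarith
    · simp

lemma logCount_union (S T : Set ℕ) (X : ℕ) : logCount (S ∪ T) X ≤ logCount S X + logCount T X := by
  unfold logCount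
  rw [← sum_add_distrib]
  apply sum_le_sum
  intro N _
  have h0 : (0 : ℝ) ≤ 1 / N := by positivity
  by_cases hS : N ∈ S
  · rw [if_pos (show N ∈ S ∪ T from Or.inl hS), if_pos hS]
    split_ifs <;> linarith
  · by_cases hT : N ∈ T
    · rw [if_pos (show N ∈ S ∪ T from Or.inr hT), if_neg hS, if_pos hT]
      linarith
    · rw [if_neg (show N ∉ S ∪ T from fun h => h.elim hS hT), if_neg hS, if_neg hT]
      linarith

/-- the configuration: the state `ξ`, the colourings, the thresholds -/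
structure Cfg (Ξ : Type) where
  ξ : ℕ → Ξ
  q : ℕ → ℕ
  c : ℕ → ℕ → ℕ
  hc : ∀ i l, c i l < q i
  θ : ℕ → ℝ
  hθ : ∀ i, 0 < θ i

variable {Ξ : Type} (D : Cfg Ξ)

/-- the indicator function of a colour -/
noncomputable def Cfg.B (k a l : ℕ) : ℂ := if D.c k l = a then 1 else 0

lemma B_le (k a l : ℕ) : ‖D.B k a l‖ ≤ 1 := by
  unfold Cfg.B
  split_ifs <;> simp

/-- the patterns of colours -/
def Cfg.pats (k : ℕ) : Finset (Fin k → ℕ) := Fintype.piFinset fun i : Fin k => range (D.q i)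

/-- the event: state and pattern -/
def Cfg.St (x : ℕ → ℕ) (k : ℕ) (s : Ξ) (l : Fin k → ℕ) (n : ℕ) : Prop :=
  D.ξ n = s ∧ ∀ i : Fin k, D.c i (om (n + x i)) = l i

open Classical in
/-- the correlation of a colour at the new shift `h` with the event -/
noncomputable def Cfg.cor (x : ℕ → ℕ) (k : ℕ) (s : Ξ) (l : Fin k → ℕ) (a h N : ℕ) : ℂ :=
  ∑ n ∈ Icc 1 N, (D.B k a (om (n + h)) - mean (D.B k a) N) * (if D.St x k s l n then 1 else 0)

/-- the bad scales of the shift `h` -/
def Cfg.Bad (x : ℕ → ℕ) (k h : ℕ) : Set ℕ :=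
  {N | ∃ s : Ξ, ∃ l ∈ D.pats k, ∃ a ∈ range (D.q k), D.θ k * N ≤ ‖D.cor x k s l a h N‖}

lemma bad_congr {x x' : ℕ → ℕ} (k h : ℕ) (hx : ∀ i < k, x i = x' i) : D.Bad x k h = D.Bad x' k h := by
  have h1 : ∀ s (l : Fin k → ℕ) a N, D.cor x k s l a h N = D.cor x' k s l a h N := by
    intro s l a N
    unfold Cfg.cor
    apply sum_congr rfl
    intro n _
    congr 1
    have h2 : D.St x k s l n ↔ D.St x' k s l n := by
      unfold Cfg.St
      constructor
      · rintro ⟨g1, g2⟩
        exact ⟨g1, fun i => by rw [← hx i i.2]; exact g2 i⟩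
      · rintro ⟨g1, g2⟩
        exact ⟨g1, fun i => by rw [hx i i.2]; exact g2 i⟩
    by_cases h3 : D.St x k s l n
    · rw [if_pos h3, if_pos (h2.1 h3)]
    · rw [if_neg h3, if_neg (fun h => h3 (h2.2 h))]
  unfold Cfg.Bad
  ext N
  simp only [Set.mem_ofPred_eq, h1]

lemma variance_le (B : ℕ → ℂ) (hB : ∀ l, ‖B l‖ ≤ 1) (N : ℕ) : variance B N ≤ 4 := by
  unfold variance
  rcases Nat.eq_zero_or_pos N with h | h
  · subst h
    simp
  have hN : (0 : ℝ) < N := by exact_mod_cast h
  have hm : ‖mean B N‖ ≤ 1 := by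
    unfold mean
    rw [norm_div, Complex.norm_natCast, div_le_one hN]
    refine (norm_sum_le _ _).trans ((sum_le_sum fun n _ => hB _).trans ?_)
    simp
  rw [div_le_iff₀ hN]
  calc ∑ n ∈ Icc 1 N, ‖B (om n) - mean B N‖ ^ 2 ≤ ∑ n ∈ Icc 1 N, (4 : ℝ) := by
        apply sum_le_sum
        intro n _
        have h1 : ‖B (om n) - mean B N‖ ≤ 2 := (norm_sub_le _ _).trans (by linarith [hB (om n)])
        nlinarith [norm_nonneg (B (om n) - mean B N)]
    _ = 4 * N := by
        rw [sum_const, Nat.card_Icc, Nat.add_sub_cancel, nsmul_eq_mul]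
        ring

/-- the constant of the next lemma -/
noncomputable def Cfg.K [Fintype Ξ] (k : ℕ) : ℝ := Fintype.card Ξ * (D.pats k).card * D.q k * (5 / D.θ k ^ 2)

lemma K_nonneg [Fintype Ξ] (k : ℕ) : 0 ≤ D.K k := by
  unfold Cfg.K
  positivity

open Classical in
/-- few shifts are bad at a good scale -/
lemma bad_card [Fintype Ξ] (x : ℕ → ℕ) (k N : ℕ) (H : Finset ℕ) (hG : ∀ a ∈ range (D.q k), Good (D.B k a) H 1 N) :
    ((H.filter (fun h => N ∈ D.Bad x k h)).card : ℝ) ≤ D.K k := by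
  set I : Finset (Ξ × (Fin k → ℕ) × ℕ) := univ ×ˢ D.pats k ×ˢ range (D.q k) with hI
  set F : Ξ × (Fin k → ℕ) × ℕ → Finset ℕ := fun z => H.filter (fun h => ∃ α : ℝ,
      D.θ k * N ≤ ‖∑ n ∈ Icc 1 N, (D.B k z.2.2 (om (n + h)) - mean (D.B k z.2.2) N) *
        (if D.St x k z.1 z.2.1 n then (1 : ℂ) else 0) * e (α * n)‖) with hF
  have h1 : H.filter (fun h => N ∈ D.Bad x k h) ⊆ I.biUnion F := by
    intro h hh
    rw [mem_filter] at hh
    obtain ⟨hH, s, l, hl, a, ha, hle⟩ := hh
    rw [mem_biUnion]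
    refine ⟨(s, l, a), mem_product.2 ⟨mem_univ _, mem_product.2 ⟨hl, ha⟩⟩, mem_filter.2 ⟨hH, 0, ?_⟩⟩
    refine hle.trans (le_of_eq ?_)
    unfold Cfg.cor
    congr 1
    apply sum_congr rfl
    intro n _
    have h2 : e ((0 : ℝ) * n) = 1 := by
      unfold e
      simp
    rw [h2, mul_one]
  have h2 : ∀ z ∈ I, ((F z).card : ℝ) ≤ 5 / D.θ k ^ 2 := by
    intro z hz
    rw [hI, mem_product, mem_product] at hz
    have h3 := (hG z.2.2 hz.2.2).2 (fun n => if D.St x k z.1 z.2.1 n then (1 : ℂ) else 0) (fun n => by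
      split_ifs <;> simp) (D.θ k) (D.hθ k)
    refine le_trans ?_ (h3.trans ?_)
    · exact le_of_eq rfl
    · apply div_le_div_of_nonneg_right _ (by positivity)
      have := variance_le (D.B k z.2.2) (B_le D k z.2.2) N
      linarith
  have h3 : ((H.filter (fun h => N ∈ D.Bad x k h)).card : ℝ) ≤ ∑ z ∈ I, ((F z).card : ℝ) := by
    have := (card_le_card h1).trans card_biUnion_le
    exact_mod_cast this
  refine h3.trans ((sum_le_sum h2).trans (le_of_eq ?_))
  rw [sum_const, nsmul_eq_mul, hI, card_product, card_product, card_univ, card_range]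
  unfold Cfg.K
  push_cast
  ring

end Pool.Agent.H616.Om
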