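import Pool.Agent.H616.Om.Sets
import Pool.Graph.R_pool_sql_team_seeded_64922ed1.Results.MP_e0aac0_nt.BlockProducts

set_option autoImplicit false

/-! The theorems. -/

namespace Pool.Agent.H616.Om
open Finset Filter Topology
open Pool.Agent.Results.MP_e0aac0_nt.ArbitraryEvents (mean variance logCount LogDensityZero Good e)

lemma half_sum (a : ℝ) (k : ℕ) : ∑ i ∈ range k, a * (1 / 2) ^ (i + 1) = a * (1 - (1 / 2) ^ k) := by
  induction k with
  | zero => simp
  | succ k ih =>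
    rw [sum_range_succ, ih]
    ring

lemma half_sum_le (a : ℝ) (ha : 0 ≤ a) (k : ℕ) : ∑ i ∈ range k, a * (1 / 2) ^ (i + 1) ≤ a := by
  rw [half_sum]
  have : (0 : ℝ) ≤ (1 / 2) ^ k := by positivity
  nlinarith

lemma half_sum_lt (a : ℝ) (ha : 0 < a) (k : ℕ) : ∑ i ∈ range k, a * (1 / 2) ^ (i + 1) < a := by
  rw [half_sum]
  have : (0 : ℝ) < (1 / 2) ^ k := by positivity
  nlinarith

/-- part 1 -/
theorem part1 {Ξ : Type} [Fintype Ξ] (ξ : ℕ → Ξ) (q : ℕ → ℕ) (c : ℕ → ℕ → ℕ) (hc : ∀ i l, c i l < q i) (S : Set ℕ)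
    (hS : S.Infinite) (δ : ℝ) (hδ : 0 < δ) :
    ∃ D : Cfg Ξ, D.ξ = ξ ∧ D.q = q ∧ D.c = c ∧ ∃ x : ℕ → ℕ, StrictMono x ∧ (∀ k, x k ∈ S) ∧ ∃ G : Set ℕ,
      (∃ᶠ X : ℕ in atTop, (1 - δ) * Real.log X ≤ logCount G X) ∧
      ∀ k, ∃ N₀ : ℕ, ∀ N ∈ G, N₀ ≤ N → D.tv x k N ≤ δ := by
  classical
  set Z : ℕ → ℝ := fun k => Fintype.card Ξ * (Fintype.piFinset fun i : Fin k => range (q i)).card * q k with hZ
  have hZ0 : ∀ k, 0 ≤ Z k := fun k => by
    rw [hZ]
    positivity
  set D : Cfg Ξ := ⟨ξ, q, c, hc, fun k => δ * (1 / 2) ^ (k + 1) / (Z k + 1), fun k => by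
    have := hZ0 k
    positivity⟩ with hD
  refine ⟨D, rfl, rfl, rfl, ?_⟩
  obtain ⟨x, h1, h2, h3⟩ := general D (fun _ : Unit => Set.univ) (fun _ => 1) (fun _ => by
      apply Eventually.frequently
      refine Eventually.of_forall fun X => ?_
      rw [logCount_univ, one_mul]
      exact log_le_hn X) (fun i => δ / 2 * (1 / 2) ^ (i + 1)) (fun i => by positivity) (fun _ _ => S)
    (fun _ _ _ _ => rfl) (fun _ _ _ => hS)
  refine ⟨x, h1, h2, ?_⟩
  obtain ⟨G, _, g2, g3⟩ := scales (fun k => D.G x k) (fun k N hN i hi => hN i (by omega)) (1 - δ) (δ / 2) (by positivity)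
    (fun k => by
      refine (h3 () k).mono fun X hX => ?_
      rw [Set.univ_inter] at hX
      refine le_trans ?_ hX
      apply mul_le_mul_of_nonneg_right _ (Real.log_natCast_nonneg X)
      have := half_sum_le (δ / 2) (by positivity) k
      linarith)
  refine ⟨G, g2, fun k => ?_⟩
  obtain ⟨N₀, hN₀⟩ := g3 k
  refine ⟨N₀ + 1, fun N hN hN1 => ?_⟩
  refine (tv_le D x k N (by omega) (hN₀ N hN (by omega))).trans ?_
  have h4 : ∀ j ∈ range k, (Fintype.card Ξ : ℝ) * (D.pats j).card * D.q j * D.θ j ≤ δ * (1 / 2) ^ (j + 1) := by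
    intro j _
    show Z j * (δ * (1 / 2) ^ (j + 1) / (Z j + 1)) ≤ δ * (1 / 2) ^ (j + 1)
    have h5 := hZ0 j
    have h6 : 0 < Z j + 1 := by linarith
    rw [mul_div_assoc', div_le_iff₀ h6]
    have : (0 : ℝ) ≤ δ * (1 / 2) ^ (j + 1) := by positivity
    nlinarith
  exact (sum_le_sum h4).trans (half_sum_le δ hδ.le k)

open Classical in
/-- part 2 -/
theorem part2 (r : ℕ) (q : ℕ → ℕ) (c : ℕ → ℕ → ℕ) (hc : ∀ i l, c i l < q i) (A : Fin r → Set ℕ)
    (hA : ∀ t, ∃ κ : ℝ, 0 < κ ∧ ∃ᶠ X : ℕ in atTop, κ * Real.log X ≤ logCount (A t) X)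
    (hρ : ∀ i, ∃ ρ : ℝ, 0 < ρ ∧ ∀ᶠ N in atTop, ∀ a < q i, ρ ≤ fr (fun n => c i (om n) = a) N)
    (τ : ℕ → Fin r) (ε : ℕ → ℕ → ℕ) (hε : ∀ i k, ε i k < q i) :
    ∃ x : ℕ → ℕ, StrictMono x ∧ (∀ k, x k ∈ A (τ k)) ∧ (∀ i k, i < k → c i (om (x i + x k)) = ε i k) ∧
      ∀ t k (l : ℕ → ℕ), (∀ i, l i < q i) → ∃ c₀ : ℝ, 0 < c₀ ∧
        ∃ᶠ N : ℕ in atTop, c₀ ≤ fr (fun y => y ∈ A t ∧ ∀ i < k, c i (om (y + x i)) = l i) N := by
  choose κ hκ hA1 using hA
  choose ρ hρ0 hρ1 using hρ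
  obtain ⟨κ₀, hκ₀, hκ₀'⟩ : ∃ κ₀ : ℝ, 0 < κ₀ ∧ ∀ t, κ₀ ≤ κ t := by
    obtain ⟨t₀, _, ht₀⟩ := exists_min_image (univ : Finset (Fin r)) κ ⟨τ 0, mem_univ _⟩
    exact ⟨κ t₀, hκ t₀, fun t => ht₀ t (mem_univ t)⟩
  set R : ℝ := ((Fintype.card (Finset (Fin r)) : ℕ) : ℝ) with hR
  have hR0 : 0 < R := by
    rw [hR]
    exact_mod_cast Fintype.card_pos
  set ξ : ℕ → Finset (Fin r) := fun n => univ.filter (fun t => n ∈ A t) with hξ
  set D : Cfg (Finset (Fin r)) := ⟨ξ, q, c, hc, fun k => κ₀ / (4 * R) * (1 / 2) ^ (k + 1) * ∏ i ∈ range (k + 1), ρ i,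
    fun k => mul_pos (by positivity) (prod_pos fun i _ => hρ0 i)⟩ with hD
  have hsum : ∀ k, ∑ j ∈ range k, D.θ j / ∏ i ∈ range (j + 1), ρ i ≤ κ₀ / (4 * R) := by
    intro k
    have h1 : ∀ j ∈ range k, D.θ j / ∏ i ∈ range (j + 1), ρ i = κ₀ / (4 * R) * (1 / 2) ^ (j + 1) := by
      intro j _
      have h2 : ∏ i ∈ range (j + 1), ρ i ≠ 0 := (prod_pos fun i _ => hρ0 i).ne'
      show κ₀ / (4 * R) * (1 / 2) ^ (j + 1) * (∏ i ∈ range (j + 1), ρ i) / ∏ i ∈ range (j + 1), ρ i = _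
      rw [mul_div_cancel_right₀ _ h2]
    rw [sum_congr rfl h1]
    exact half_sum_le _ (by positivity) k
  -- the patterns at the good scales
  have key : ∀ (x : ℕ → ℕ) (k : ℕ) (t : Fin r) (l : ℕ → ℕ), (∀ i, l i < q i) →
      (∃ᶠ X : ℕ in atTop, (κ t / 3 - ∑ i ∈ range k, κ₀ / 3 * (1 / 2) ^ (i + 1)) * Real.log X ≤
        logCount ({N | κ t / 2 ≤ fr (· ∈ A t) N} ∩ D.G x k) X) →
      ∃ᶠ N : ℕ in atTop, κ₀ / 4 * ∏ i ∈ range k, ρ i ≤
        fr (fun y => y ∈ A t ∧ ∀ i < k, c i (om (y + x i)) = l i) N := by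
    intro x k t l hl h
    have h1 : 0 < κ t / 3 - ∑ i ∈ range k, κ₀ / 3 * (1 / 2) ^ (i + 1) := by
      have := half_sum_lt (κ₀ / 3) (by positivity) k
      have := hκ₀' t
      linarith
    have h2 := large_of _ _ h1 h
    have h3 : ∀ᶠ N in atTop, ∀ i ∈ range k, ∀ a < q i, ρ i ≤ fr (fun n => c i (om n) = a) N := by
      rw [Filter.eventually_all_finset]
      intro i _
      exact hρ1 i
    refine (h2.and_eventually (h3.and (eventually_ge_atTop 1))).mono ?_
    rintro N ⟨⟨e1, e2⟩, e3, e4⟩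
    have hP : ∏ i ∈ range k, ρ i ≤ ∏ i ∈ range k, D.p i (l i) N :=
      prod_le_prod (fun i _ => (hρ0 i).le) fun i hi => e3 i hi (l i) (hl i)
    have hP0 : 0 < ∏ i ∈ range k, ρ i := prod_pos fun i _ => hρ0 i
    -- sum over the states
    have f1 : fr (fun y => y ∈ A t ∧ ∀ i < k, c i (om (y + x i)) = l i) N =
        ∑ s ∈ (univ : Finset (Finset (Fin r))).filter (fun s => t ∈ s), fr (D.St x k s (fun i => l i)) N := by
      rw [fr_eq]
      have g1 : ∀ s ∈ (univ : Finset (Finset (Fin r))).filter (fun s => t ∈ s), fr (D.St x k s (fun i => l i)) N =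
          (∑ n ∈ Icc 1 N, if D.St x k s (fun i => l i) n then (1 : ℝ) else 0) / N := fun s _ => fr_eq _ _
      rw [sum_congr rfl g1, ← sum_div, sum_comm]
      congr 1
      apply sum_congr rfl
      intro n _
      by_cases g2 : n ∈ A t ∧ ∀ i < k, c i (om (n + x i)) = l i
      · rw [if_pos g2, sum_eq_single (ξ n)]
        · rw [if_pos]
          exact ⟨rfl, fun i => g2.2 i i.2⟩
        · intro s _ hne
          rw [if_neg]
          rintro ⟨g3, _⟩
          exact hne g3.symm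
        · intro g3
          exfalso
          apply g3
          rw [mem_filter, hξ]
          exact ⟨mem_univ _, mem_filter.2 ⟨mem_univ _, g2.1⟩⟩
      · rw [if_neg g2]
        symm
        apply sum_eq_zero
        intro s hs
        rw [if_neg]
        rintro ⟨g3, g4⟩
        apply g2
        refine ⟨?_, fun i hi => g4 ⟨i, hi⟩⟩
        rw [mem_filter] at hs
        have g5 : t ∈ ξ n := by
          have : D.ξ n = s := g3
          rw [show ξ n = s from this]
          exact hs.2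
        rw [hξ, mem_filter] at g5
        exact g5.2
    have f2 : fr (· ∈ A t) N = ∑ s ∈ (univ : Finset (Finset (Fin r))).filter (fun s => t ∈ s), fr (fun n => D.ξ n = s) N := by
      rw [fr_eq]
      have g1 : ∀ s ∈ (univ : Finset (Finset (Fin r))).filter (fun s => t ∈ s), fr (fun n => D.ξ n = s) N =
          (∑ n ∈ Icc 1 N, if D.ξ n = s then (1 : ℝ) else 0) / N := fun s _ => fr_eq _ _
      rw [sum_congr rfl g1, ← sum_div, sum_comm]
      congr 1
      apply sum_congr rfl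
      intro n _
      by_cases g2 : n ∈ A t
      · rw [if_pos g2, sum_eq_single (ξ n)]
        · rw [if_pos]
          rfl
        · intro s _ hne
          rw [if_neg]
          intro g3
          exact hne g3.symm
        · intro g3
          exfalso
          apply g3
          rw [mem_filter, hξ]
          exact ⟨mem_univ _, mem_filter.2 ⟨mem_univ _, g2⟩⟩
      · rw [if_neg g2]
        symm
        apply sum_eq_zero
        intro s hs
        rw [if_neg]
        intro g3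
        apply g2
        rw [mem_filter] at hs
        have g5 : t ∈ ξ n := by
          rw [show ξ n = s from g3]
          exact hs.2
        rw [hξ, mem_filter] at g5
        exact g5.2
    have f3 : ∀ s, fr (fun n => D.ξ n = s) N * ∏ i ∈ range k, D.p i (l i) N - κ₀ / (4 * R) * ∏ i ∈ range k, D.p i (l i) N ≤
        fr (D.St x k s (fun i => l i)) N := by
      intro s
      have g1 := rel D x ρ hρ0 l hl s N e4 k e2 (fun i hi => e3 i (mem_range.2 hi) (l i) (hl i))
      have g2 := (abs_le.1 g1).1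
      have g3 := mul_le_mul_of_nonneg_right (hsum k) (hP0.le.trans hP)
      linarith
    have f4 : (fr (· ∈ A t) N - κ₀ / 4) * ∏ i ∈ range k, D.p i (l i) N ≤
        fr (fun y => y ∈ A t ∧ ∀ i < k, c i (om (y + x i)) = l i) N := by
      rw [f1]
      refine le_trans ?_ (sum_le_sum fun s _ => f3 s)
      rw [sum_sub_distrib, ← sum_mul, ← f2, sum_const, nsmul_eq_mul, sub_mul]
      have g1 : ((((univ : Finset (Finset (Fin r))).filter (fun s => t ∈ s)).card : ℕ) : ℝ) ≤ R := by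
        rw [hR, ← card_univ]
        exact_mod_cast card_filter_le _ _
      have g2 : (0 : ℝ) ≤ κ₀ / (4 * R) * ∏ i ∈ range k, D.p i (l i) N :=
        mul_nonneg (by positivity) (hP0.le.trans hP)
      have g3 := mul_le_mul_of_nonneg_right g1 g2
      have g4 : R * (κ₀ / (4 * R) * ∏ i ∈ range k, D.p i (l i) N) = κ₀ / 4 * ∏ i ∈ range k, D.p i (l i) N := by
        field_simp
      linarith
    refine le_trans ?_ f4
    have f5 : κ₀ / 4 ≤ fr (· ∈ A t) N - κ₀ / 4 := by
      have g1 : κ t / 2 ≤ fr (· ∈ A t) N := e1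
      have := hκ₀' t
      linarith
    exact mul_le_mul f5 hP hP0.le (by linarith)
  obtain ⟨x, h1, h2, h3⟩ := general D (fun t : Fin r => {N | κ t / 2 ≤ fr (· ∈ A t) N}) (fun t => κ t / 3)
    (fun t => scales_of (A t) (κ t) (hκ t) (hA1 t)) (fun i => κ₀ / 3 * (1 / 2) ^ (i + 1)) (fun i => by positivity)
    (fun k x => {y | y ∈ A (τ k) ∧ ∀ i < k, c i (om (y + x i)) = ε i k})
    (fun k x x' hx => by
      ext y
      constructor
      · rintro ⟨g1, g2⟩
        exact ⟨g1, fun i hi => by rw [← hx i hi]; exact g2 i hi⟩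
      · rintro ⟨g1, g2⟩
        exact ⟨g1, fun i hi => by rw [hx i hi]; exact g2 i hi⟩)
    (fun k x h => infinite_of _ _ (by
        have : 0 < ∏ i ∈ range k, ρ i := prod_pos fun i _ => hρ0 i
        positivity) (key x k (τ k) (fun i => ε i k) (fun i => hε i k) (h (τ k))))
  refine ⟨x, h1, fun k => (h2 k).1, fun i k hik => ?_, fun t k l hl => ⟨κ₀ / 4 * ∏ i ∈ range k, ρ i, ?_, key x k t l hl (h3 t k)⟩⟩
  · rw [add_comm]
    exact (h2 k).2 i hik
  · have : 0 < ∏ i ∈ range k, ρ i := prod_pos fun i _ => hρ0 i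
    positivity

/-- equidistribution of `Ω` modulo `m` -/
lemma mod_dens (m : ℕ) (hm : 1 ≤ m) : ∃ ρ : ℝ, 0 < ρ ∧ ∀ᶠ N in atTop, ∀ a < m, ρ ≤ fr (fun n => om n % m = a) N := by
  classical
  have hmc : (m : ℂ) ≠ 0 := by exact_mod_cast (by omega : m ≠ 0)
  have hm0 : (0 : ℝ) < m := by exact_mod_cast hm
  set z : ℂ := Complex.exp (2 * Real.pi * Complex.I / m) with hz
  have hzp : IsPrimitiveRoot z m := Complex.isPrimitiveRoot_exp m (by omega)
  have h1 : ∀ a < m, ∀ N : ℕ, ((fr (fun n => om n % m = a) N : ℝ) : ℂ) =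
      1 / (m : ℂ) * ∑ j ∈ range m, (z ^ j) ^ (m - a) * Pool.Agent.Y842.QY.mB (fun l => (z ^ j) ^ l) N := by
    intro a ha N
    have h2 : ∀ n, (if om n % m = a then (1 : ℂ) else 0) =
        1 / (m : ℂ) * ∑ j ∈ range m, (z ^ j) ^ (m - a) * (z ^ j) ^ (om n) := by
      intro n
      have h3 : ∑ j ∈ range m, (z ^ j) ^ (m - a) * (z ^ j) ^ (om n) = ∑ j ∈ range m, (z ^ ((m - a) + om n)) ^ j := by
        apply sum_congr rfl
        intro j _
        rw [← pow_add, ← pow_mul, ← pow_mul, mul_comm]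
      rw [h3, Pool.Agent.X23.EL.root_sum m hm z hzp]
      have h4 : m ∣ (m - a) + om n ↔ om n % m = a := by
        constructor
        · intro h
          have h5 : (m - a) + om n ≡ (m - a) + a [MOD m] := by
            rw [Nat.sub_add_cancel ha.le]
            exact (Nat.modEq_zero_iff_dvd.2 h).trans (Nat.modEq_zero_iff_dvd.2 dvd_rfl).symm
          have h6 : om n % m = a % m := Nat.ModEq.add_left_cancel' _ h5
          rw [h6, Nat.mod_eq_of_lt ha]
        · intro h
          have h5 : om n ≡ a [MOD m] := by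
            unfold Nat.ModEq
            rw [h, Nat.mod_eq_of_lt ha]
          have h6 : (m - a) + om n ≡ (m - a) + a [MOD m] := Nat.ModEq.add_left _ h5
          rw [Nat.sub_add_cancel ha.le] at h6
          exact Nat.modEq_zero_iff_dvd.1 (h6.trans (Nat.modEq_zero_iff_dvd.2 dvd_rfl))
      by_cases h5 : om n % m = a
      · rw [if_pos h5, if_pos (h4.2 h5)]
        field_simp
      · rw [if_neg h5, if_neg (fun h => h5 (h4.1 h)), mul_zero]
    rw [fr_eq]
    push_cast
    have h3 : ∀ n ∈ Icc 1 N, (((if om n % m = a then (1 : ℝ) else 0) : ℝ) : ℂ) =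
        1 / (m : ℂ) * ∑ j ∈ range m, (z ^ j) ^ (m - a) * (z ^ j) ^ (om n) := by
      intro n _
      rw [← h2 n]
      split_ifs <;> simp
    have h4 : ∑ n ∈ Icc 1 N, (((if om n % m = a then (1 : ℝ) else 0) : ℝ) : ℂ) =
        1 / (m : ℂ) * ∑ j ∈ range m, (z ^ j) ^ (m - a) * ∑ n ∈ Icc 1 N, (z ^ j) ^ (om n) := by
      rw [sum_congr rfl h3, ← mul_sum, sum_comm]
      congr 1
      apply sum_congr rfl
      intro j _
      rw [mul_sum]
    rw [h4, mul_div_assoc, sum_div]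
    congr 1
    apply sum_congr rfl
    intro j _
    rw [mul_div_assoc]
    rfl
  have h2 : ∀ a < m, Tendsto (fun N => ((fr (fun n => om n % m = a) N : ℝ) : ℂ)) atTop (𝓝 (1 / (m : ℂ))) := by
    intro a ha
    have h3 : (fun N => ((fr (fun n => om n % m = a) N : ℝ) : ℂ)) = fun N =>
        1 / (m : ℂ) * ∑ j ∈ range m, (z ^ j) ^ (m - a) * Pool.Agent.Y842.QY.mB (fun l => (z ^ j) ^ l) N :=
      funext fun N => h1 a ha N
    rw [h3]
    have h4 : ∀ j ∈ range m, Tendsto (fun N => (z ^ j) ^ (m - a) * Pool.Agent.Y842.QY.mB (fun l => (z ^ j) ^ l) N)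
        atTop (𝓝 (if j = 0 then 1 else 0)) := by
      intro j hj
      rw [mem_range] at hj
      by_cases hj0 : j = 0
      · rw [if_pos hj0, hj0]
        have h5 : ∀ᶠ N : ℕ in atTop, (z ^ 0) ^ (m - a) * Pool.Agent.Y842.QY.mB (fun l => (z ^ 0) ^ l) N = 1 := by
          filter_upwards [eventually_ge_atTop 1] with N hN
          have hN0 : (N : ℂ) ≠ 0 := by exact_mod_cast (by omega : N ≠ 0)
          unfold Pool.Agent.Y842.QY.mB
          simp only [pow_zero, one_pow, sum_const, Nat.card_Icc, Nat.add_sub_cancel, nsmul_eq_mul, mul_one, one_mul]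
          exact div_self hN0
        exact (tendsto_congr' h5).2 tendsto_const_nhds
      · rw [if_neg hj0]
        have h5 : z ^ j ≠ 1 := by
          intro h
          have := (hzp.pow_eq_one_iff_dvd j).1 h
          have := Nat.le_of_dvd (by omega) this
          omega
        have h6 : ‖z ^ j‖ = 1 := by
          rw [norm_pow, Pool.Agent.X23.EL.root_norm m hm z hzp, one_pow]
        have h7 := (Pool.Agent.X23.EL.mean_pow (z ^ j) h6 h5).const_mul ((z ^ j) ^ (m - a))
        rw [mul_zero] at h7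
        exact h7
    have h5 := (tendsto_finsetSum _ h4).const_mul (1 / (m : ℂ))
    have h6 : ∑ j ∈ range m, (if j = 0 then (1 : ℂ) else 0) = 1 := by
      rw [sum_ite_eq' (range m) 0, if_pos (mem_range.2 (by omega))]
    rw [h6, mul_one] at h5
    exact h5
  refine ⟨1 / (2 * m), by positivity, ?_⟩
  have h3 : ∀ᶠ N in atTop, ∀ a ∈ range m, 1 / (2 * (m : ℝ)) ≤ fr (fun n => om n % m = a) N := by
    rw [Filter.eventually_all_finset]
    intro a ha
    have h4 := h2 a (mem_range.1 ha)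
    have h5 : Tendsto (fun N => fr (fun n => om n % m = a) N) atTop (𝓝 (1 / (m : ℝ))) := by
      have h6 := (Complex.continuous_re.tendsto _).comp h4
      have h7 : (1 / (m : ℂ)).re = 1 / (m : ℝ) := by
        have : (1 / (m : ℂ)) = ((1 / (m : ℝ) : ℝ) : ℂ) := by push_cast; rfl
        rw [this, Complex.ofReal_re]
      rw [h7] at h6
      exact h6
    have h6 : 1 / (2 * (m : ℝ)) < 1 / (m : ℝ) := by
      apply one_div_lt_one_div_of_lt hm0
      linarith
    exact (h5.eventually (lt_mem_nhds h6)).mono fun N hN => hN.le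
  exact h3.mono fun N hN a ha => hN a (mem_range.2 ha)

end Pool.Agent.H616.Om
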