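import Pool.Agent.H616.Om.Step

set_option autoImplicit false

/-! The joint laws at the good scales. -/

namespace Pool.Agent.H616.Om
open Finset Filter Topology
open Pool.Agent.Results.MP_e0aac0_nt.ArbitraryEvents (mean variance logCount LogDensityZero Good e)

variable {Ξ : Type} (D : Cfg Ξ)

open Classical in
/-- frequency among `1, ..., N` -/
noncomputable def fr (P : ℕ → Prop) (N : ℕ) : ℝ := (((Icc 1 N).filter P).card : ℝ) / N

lemma fr_eq (P : ℕ → Prop) (N : ℕ) [DecidablePred P] : fr P N = (∑ n ∈ Icc 1 N, if P n then (1 : ℝ) else 0) / N := by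
  classical
  unfold fr
  rw [card_filter]
  push_cast
  congr 1

lemma fr_nonneg (P : ℕ → Prop) (N : ℕ) : 0 ≤ fr P N := by
  unfold fr
  positivity

lemma fr_congr {P P' : ℕ → Prop} (N : ℕ) (h : ∀ n, P n ↔ P' n) : fr P N = fr P' N := by
  have : P = P' := funext fun n => propext (h n)
  rw [this]

/-- the frequencies of the colours -/
noncomputable def Cfg.p (i a N : ℕ) : ℝ := fr (fun n => D.c i (om n) = a) N

lemma p_nonneg (i a N : ℕ) : 0 ≤ D.p i a N := fr_nonneg _ _

lemma p_sum (i N : ℕ) (hN : 1 ≤ N) : ∑ a ∈ range (D.q i), D.p i a N = 1 := by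
  classical
  have hN0 : (0 : ℝ) < N := by exact_mod_cast hN
  unfold Cfg.p
  have h1 : ∀ a ∈ range (D.q i), fr (fun n => D.c i (om n) = a) N =
      (∑ n ∈ Icc 1 N, if D.c i (om n) = a then (1 : ℝ) else 0) / N := fun a _ => fr_eq _ _
  rw [sum_congr rfl h1, ← sum_div, sum_comm]
  have h2 : ∀ n ∈ Icc 1 N, ∑ a ∈ range (D.q i), (if D.c i (om n) = a then (1 : ℝ) else 0) = 1 := by
    intro n _
    rw [sum_ite_eq, if_pos (mem_range.2 (D.hc i _))]
  rw [sum_congr rfl h2, sum_const, Nat.card_Icc, Nat.add_sub_cancel, nsmul_eq_mul, mul_one, div_self hN0.ne']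

lemma mean_B (k a N : ℕ) : mean (D.B k a) N = ((D.p k a N : ℝ) : ℂ) := by
  classical
  unfold mean Cfg.p
  rw [fr_eq]
  push_cast
  congr 1
  apply sum_congr rfl
  intro n _
  unfold Cfg.B
  by_cases h : D.c k (om n) = a
  · rw [if_pos h, if_pos h, Complex.ofReal_one]
  · rw [if_neg h, if_neg h, Complex.ofReal_zero]

lemma cor_eq (x : ℕ → ℕ) (k : ℕ) (s : Ξ) (l : Fin k → ℕ) (a h N : ℕ) (hN : 1 ≤ N) :
    D.cor x k s l a h N = ((N * (fr (fun n => D.St x k s l n ∧ D.c k (om (n + h)) = a) N -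
      D.p k a N * fr (D.St x k s l) N) : ℝ) : ℂ) := by
  classical
  have hN0 : (N : ℝ) ≠ 0 := by
    have : (0 : ℝ) < N := by exact_mod_cast hN
    exact this.ne'
  have h1 : (N : ℝ) * fr (fun n => D.St x k s l n ∧ D.c k (om (n + h)) = a) N =
      ∑ n ∈ Icc 1 N, if D.St x k s l n ∧ D.c k (om (n + h)) = a then (1 : ℝ) else 0 := by
    rw [fr_eq, mul_div_cancel₀ _ hN0]
  have h2 : (N : ℝ) * fr (D.St x k s l) N = ∑ n ∈ Icc 1 N, if D.St x k s l n then (1 : ℝ) else 0 := by
    rw [fr_eq, mul_div_cancel₀ _ hN0]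
  have h3 : (N : ℝ) * (fr (fun n => D.St x k s l n ∧ D.c k (om (n + h)) = a) N - D.p k a N * fr (D.St x k s l) N) =
      ∑ n ∈ Icc 1 N, ((if D.St x k s l n ∧ D.c k (om (n + h)) = a then (1 : ℝ) else 0) -
        D.p k a N * (if D.St x k s l n then (1 : ℝ) else 0)) := by
    rw [sum_sub_distrib, ← mul_sum, ← h1, ← h2]
    ring
  rw [h3]
  unfold Cfg.cor
  push_cast
  apply sum_congr rfl
  intro n _
  rw [mean_B]
  unfold Cfg.B
  by_cases h4 : D.St x k s l n
  · by_cases h5 : D.c k (om (n + h)) = a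
    · rw [if_pos h4, if_pos h5, if_pos ⟨h4, h5⟩, if_pos h4]
      push_cast
      ring
    · rw [if_pos h4, if_neg h5, if_neg (fun hh => h5 hh.2), if_pos h4]
      push_cast
      ring
  · have e1 : (if D.St x k s l n then (1 : ℂ) else 0) = 0 := if_neg h4
    have e2 : (if D.St x k s l n then (1 : ℝ) else 0) = 0 := if_neg h4
    have e3 : (if D.St x k s l n ∧ D.c k (om (n + h)) = a then (1 : ℝ) else 0) = 0 := if_neg fun hh => h4 hh.1
    rw [e1, e2, e3]
    push_cast
    ring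

lemma good_fr (x : ℕ → ℕ) (k h N : ℕ) (hN : 1 ≤ N) (hg : N ∉ D.Bad x k h) (s : Ξ) (l : Fin k → ℕ) (hl : l ∈ D.pats k)
    (a : ℕ) (ha : a ∈ range (D.q k)) :
    |fr (fun n => D.St x k s l n ∧ D.c k (om (n + h)) = a) N - D.p k a N * fr (D.St x k s l) N| ≤ D.θ k := by
  have hN0 : (0 : ℝ) < N := by exact_mod_cast hN
  by_contra hcon
  rw [not_le] at hcon
  apply hg
  refine ⟨s, l, hl, a, ha, ?_⟩
  rw [cor_eq D x k s l a h N hN, Complex.norm_real, Real.norm_eq_abs, abs_mul, abs_of_pos hN0]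
  nlinarith

lemma St_succ (x : ℕ → ℕ) (k : ℕ) (s : Ξ) (l : ℕ → ℕ) (n : ℕ) :
    D.St x (k + 1) s (fun i => l i) n ↔ (D.St x k s (fun i => l i) n ∧ D.c k (om (n + x k)) = l k) := by
  unfold Cfg.St
  constructor
  · rintro ⟨h1, h2⟩
    exact ⟨⟨h1, fun i => h2 i.castSucc⟩, h2 (Fin.last k)⟩
  · rintro ⟨⟨h1, h2⟩, h3⟩
    refine ⟨h1, fun i => ?_⟩
    by_cases hi : (i : ℕ) < k
    · exact h2 ⟨i, hi⟩
    · have : (i : ℕ) = k := by omega
      show D.c (i : ℕ) (om (n + x (i : ℕ))) = l (i : ℕ)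
      rw [this]
      exact h3

/-- relative errors -/
lemma rel (x : ℕ → ℕ) (ρ : ℕ → ℝ) (hρ : ∀ i, 0 < ρ i) (l : ℕ → ℕ) (hl : ∀ i, l i < D.q i) (s : Ξ) (N : ℕ) (hN : 1 ≤ N)
    (k : ℕ) (hG : N ∈ D.G x k) (hp : ∀ i < k, ρ i ≤ D.p i (l i) N) :
    |fr (D.St x k s (fun i => l i)) N - fr (fun n => D.ξ n = s) N * ∏ i ∈ range k, D.p i (l i) N| ≤
      (∑ j ∈ range k, D.θ j / ∏ i ∈ range (j + 1), ρ i) * ∏ i ∈ range k, D.p i (l i) N := by
  induction k with
  | zero =>
    have h1 : fr (D.St x 0 s (fun i => l i)) N = fr (fun n => D.ξ n = s) N := by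
      apply fr_congr
      intro n
      unfold Cfg.St
      exact ⟨fun h => h.1, fun h => ⟨h, fun i => i.elim0⟩⟩
    rw [h1]
    simp
  | succ k ih =>
    have ih' := ih (fun i hi => hG i (by omega)) (fun i hi => hp i (by omega))
    have h2 := good_fr D x k (x k) N hN (hG k (by omega)) s (fun i => l i)
      (Fintype.mem_piFinset.2 fun i => mem_range.2 (hl i)) (l k) (mem_range.2 (hl k))
    have h3 : fr (D.St x (k + 1) s (fun i => l i)) N =
        fr (fun n => D.St x k s (fun i => l i) n ∧ D.c k (om (n + x k)) = l k) N := fr_congr N (St_succ D x k s l)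
    rw [h3, prod_range_succ, sum_range_succ]
    set P := ∏ i ∈ range k, D.p i (l i) N with hP
    set pk := D.p k (l k) N with hpk
    set A := fr (fun n => D.St x k s (fun i => l i) n ∧ D.c k (om (n + x k)) = l k) N with hA
    set B := fr (D.St x k s (fun i => l i)) N with hB
    set C := fr (fun n => D.ξ n = s) N with hC
    have hpk0 : 0 ≤ pk := p_nonneg D _ _ _
    have e1 : |A - C * (P * pk)| ≤ |A - pk * B| + pk * |B - C * P| := by
      have : A - C * (P * pk) = (A - pk * B) + pk * (B - C * P) := by ring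
      rw [this]
      refine (abs_add_le _ _).trans ?_
      rw [abs_mul, abs_of_nonneg hpk0]
    have e2 : ∏ i ∈ range (k + 1), ρ i ≤ P * pk := by
      rw [prod_range_succ]
      apply mul_le_mul
      · exact prod_le_prod (fun i _ => (hρ i).le) fun i hi => hp i (by rw [mem_range] at hi; omega)
      · exact hp k (by omega)
      · exact (hρ k).le
      · exact prod_nonneg fun i _ => p_nonneg D _ _ _
    have e3 : 0 < ∏ i ∈ range (k + 1), ρ i := prod_pos fun i _ => hρ i
    have e4 : D.θ k ≤ D.θ k / (∏ i ∈ range (k + 1), ρ i) * (P * pk) := by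
      rw [div_mul_eq_mul_div, le_div_iff₀ e3]
      exact mul_le_mul_of_nonneg_left e2 (D.hθ k).le
    have e5 := mul_le_mul_of_nonneg_left ih' hpk0
    calc |A - C * (P * pk)| ≤ |A - pk * B| + pk * |B - C * P| := e1
      _ ≤ D.θ k + pk * ((∑ j ∈ range k, D.θ j / ∏ i ∈ range (j + 1), ρ i) * P) := add_le_add h2 e5
      _ ≤ D.θ k / (∏ i ∈ range (k + 1), ρ i) * (P * pk) +
          pk * ((∑ j ∈ range k, D.θ j / ∏ i ∈ range (j + 1), ρ i) * P) := by linarith
      _ = _ := by ring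

/-- the total variation -/
noncomputable def Cfg.tv [Fintype Ξ] (x : ℕ → ℕ) (k N : ℕ) : ℝ :=
  ∑ s : Ξ, ∑ l ∈ D.pats k, |fr (D.St x k s l) N - fr (fun n => D.ξ n = s) N * ∏ i : Fin k, D.p i (l i) N|

lemma sum_pats (k : ℕ) (F : (Fin (k + 1) → ℕ) → ℝ) :
    ∑ l ∈ D.pats (k + 1), F l = ∑ l ∈ D.pats k, ∑ a ∈ range (D.q k), F (Fin.snoc (α := fun _ => ℕ) l a) := by
  rw [← sum_product']
  symm
  refine sum_nbij' (fun z => Fin.snoc (α := fun _ => ℕ) z.1 z.2) (fun l => (Fin.init l, l (Fin.last k))) ?_ ?_ ?_ ?_ ?_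
  · intro z hz
    rw [mem_product] at hz
    unfold Cfg.pats at hz ⊢
    rw [Fintype.mem_piFinset] at hz ⊢
    intro i
    refine Fin.lastCases ?_ (fun j => ?_) i
    · rw [Fin.snoc_last]
      exact hz.2
    · rw [Fin.snoc_castSucc]
      exact hz.1 j
  · intro l hl
    rw [mem_product]
    unfold Cfg.pats at hl ⊢
    rw [Fintype.mem_piFinset] at hl ⊢
    exact ⟨fun i => hl i.castSucc, hl (Fin.last k)⟩
  · intro z _
    rw [Fin.init_snoc, Fin.snoc_last]
  · intro l _
    exact Fin.snoc_init_self l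
  · intro z _
    rfl

lemma tv_succ [Fintype Ξ] (x : ℕ → ℕ) (k N : ℕ) (hN : 1 ≤ N) (hg : N ∉ D.Bad x k (x k)) :
    D.tv x (k + 1) N ≤ D.tv x k N + Fintype.card Ξ * (D.pats k).card * D.q k * D.θ k := by
  unfold Cfg.tv
  have h1 : ∀ s : Ξ, ∑ l ∈ D.pats (k + 1), |fr (D.St x (k + 1) s l) N - fr (fun n => D.ξ n = s) N *
        ∏ i : Fin (k + 1), D.p i (l i) N| ≤
      ∑ l ∈ D.pats k, |fr (D.St x k s l) N - fr (fun n => D.ξ n = s) N * ∏ i : Fin k, D.p i (l i) N| +
        (D.pats k).card * (D.q k * D.θ k) := by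
    intro s
    rw [sum_pats]
    have h2 : ((D.pats k).card : ℝ) * (D.q k * D.θ k) = ∑ l ∈ D.pats k, ∑ a ∈ range (D.q k), D.θ k := by
      rw [sum_const, sum_const, card_range, nsmul_eq_mul, nsmul_eq_mul]
    rw [h2, ← sum_add_distrib]
    apply sum_le_sum
    intro l hl
    have h3 : |fr (D.St x k s l) N - fr (fun n => D.ξ n = s) N * ∏ i : Fin k, D.p i (l i) N| =
        ∑ a ∈ range (D.q k), D.p k a N * |fr (D.St x k s l) N - fr (fun n => D.ξ n = s) N * ∏ i : Fin k, D.p i (l i) N| := by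
      rw [← sum_mul, p_sum D k N hN, one_mul]
    rw [h3, ← sum_add_distrib]
    apply sum_le_sum
    intro a ha
    have h4 := good_fr D x k (x k) N hN hg s l hl a ha
    have h5 : fr (D.St x (k + 1) s (Fin.snoc (α := fun _ => ℕ) l a)) N =
        fr (fun n => D.St x k s l n ∧ D.c k (om (n + x k)) = a) N := by
      apply fr_congr
      intro n
      unfold Cfg.St
      constructor
      · rintro ⟨g1, g2⟩
        refine ⟨⟨g1, fun i => ?_⟩, ?_⟩
        · have := g2 i.castSucc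
          rw [Fin.snoc_castSucc] at this
          exact this
        · have := g2 (Fin.last k)
          rw [Fin.snoc_last] at this
          exact this
      · rintro ⟨⟨g1, g2⟩, g3⟩
        refine ⟨g1, fun i => ?_⟩
        refine Fin.lastCases ?_ (fun j => ?_) i
        · rw [Fin.snoc_last]
          exact g3
        · rw [Fin.snoc_castSucc]
          exact g2 j
    have h6 : ∏ i : Fin (k + 1), D.p i (Fin.snoc (α := fun _ => ℕ) l a i) N = (∏ i : Fin k, D.p i (l i) N) * D.p k a N := by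
      rw [Fin.prod_univ_castSucc, Fin.snoc_last]
      congr 1
      apply prod_congr rfl
      intro i _
      rw [Fin.snoc_castSucc]
      rfl
    rw [h5, h6]
    set P := ∏ i : Fin k, D.p i (l i) N
    set pk := D.p k a N with hpk
    set A := fr (fun n => D.St x k s l n ∧ D.c k (om (n + x k)) = a) N
    set B := fr (D.St x k s l) N
    set C := fr (fun n => D.ξ n = s) N
    have hpk0 : 0 ≤ pk := p_nonneg D _ _ _
    have : A - C * (P * pk) = (A - pk * B) + pk * (B - C * P) := by ring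
    rw [this]
    refine (abs_add_le _ _).trans ?_
    rw [abs_mul, abs_of_nonneg hpk0]
    linarith
  refine (sum_le_sum fun s _ => h1 s).trans (le_of_eq ?_)
  rw [sum_add_distrib, sum_const, nsmul_eq_mul, card_univ]
  ring

lemma tv_zero [Fintype Ξ] (x : ℕ → ℕ) (N : ℕ) : D.tv x 0 N = 0 := by
  unfold Cfg.tv
  apply sum_eq_zero
  intro s _
  apply sum_eq_zero
  intro l _
  have h1 : fr (D.St x 0 s l) N = fr (fun n => D.ξ n = s) N := by
    apply fr_congr
    intro n
    unfold Cfg.St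
    exact ⟨fun h => h.1, fun h => ⟨h, fun i => i.elim0⟩⟩
  rw [h1]
  simp

lemma tv_le [Fintype Ξ] (x : ℕ → ℕ) (k N : ℕ) (hN : 1 ≤ N) (hg : N ∈ D.G x k) :
    D.tv x k N ≤ ∑ j ∈ range k, Fintype.card Ξ * (D.pats j).card * D.q j * D.θ j := by
  induction k with
  | zero => rw [tv_zero]; simp
  | succ k ih =>
    rw [sum_range_succ]
    have h1 := tv_succ D x k N hN (hg k (by omega))
    have h2 := ih (fun i hi => hg i (by omega))
    linarith

end Pool.Agent.H616.Om
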