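import Pool.Agent.H616.Om.Laws

set_option autoImplicit false

/-! Sets of positive upper logarithmic density and their scales. -/

namespace Pool.Agent.H616.Om
open Finset Filter Topology
open Pool.Agent.Results.MP_e0aac0_nt.ArbitraryEvents (mean variance logCount LogDensityZero Good e)

/-- partial summation -/
lemma abel (A : Set ℕ) (X : ℕ) :
    logCount A X = ∑ N ∈ Icc 1 X, fr (· ∈ A) N / (N + 1) + X * fr (· ∈ A) X / (X + 1) := by
  classical
  have hfr : ∀ N : ℕ, (N : ℝ) * fr (· ∈ A) N = ∑ n ∈ Icc 1 N, if n ∈ A then (1 : ℝ) else 0 := by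
    intro N
    rcases Nat.eq_zero_or_pos N with h | h
    · subst h
      simp
    · have hN0 : (N : ℝ) ≠ 0 := by
        have : (0 : ℝ) < N := by exact_mod_cast h
        exact this.ne'
      rw [fr_eq, mul_div_cancel₀ _ hN0]
  induction X with
  | zero =>
    rw [logCount_eq]
    simp
  | succ X ih =>
    have h1 : logCount A (X + 1) = logCount A X + if X + 1 ∈ A then (1 : ℝ) / ((X + 1 : ℕ) : ℝ) else 0 := by
      rw [logCount_eq, logCount_eq, Finset.sum_Icc_succ_top (by omega)]
    rw [h1, ih, Finset.sum_Icc_succ_top (by omega)]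
    have h2 := hfr (X + 1)
    rw [Finset.sum_Icc_succ_top (by omega), ← hfr X] at h2
    set F := fr (· ∈ A) (X + 1) with hF
    set f := fr (· ∈ A) X with hf
    have hX : ((X : ℝ) + 1) ≠ 0 := by positivity
    have hX2 : ((X : ℝ) + 1 + 1) ≠ 0 := by positivity
    push_cast at h2 ⊢
    by_cases hA : X + 1 ∈ A
    · rw [if_pos hA] at h2 ⊢
      field_simp
      field_simp at h2
      linear_combination (-((X : ℝ) + 1 + 1)) * h2
    · rw [if_neg hA] at h2 ⊢
      field_simp
      field_simp at h2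
      linear_combination (-((X : ℝ) + 1 + 1)) * h2

lemma fr_le_one (P : ℕ → Prop) (N : ℕ) : fr P N ≤ 1 := by
  classical
  unfold fr
  apply div_le_one_of_le₀ _ (by positivity)
  have : ((Icc 1 N).filter P).card ≤ N := by
    refine (card_filter_le _ _).trans ?_
    rw [Nat.card_Icc, Nat.add_sub_cancel]
  refine le_trans ?_ (by exact_mod_cast this : (((Icc 1 N).filter P).card : ℝ) ≤ N)
  exact le_of_eq rfl

/-- the scales of a set of positive upper logarithmic density -/
lemma scales_of (A : Set ℕ) (κ : ℝ) (hκ : 0 < κ) (h : ∃ᶠ X : ℕ in atTop, κ * Real.log X ≤ logCount A X) :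
    ∃ᶠ X : ℕ in atTop, κ / 3 * Real.log X ≤ logCount {N | κ / 2 ≤ fr (· ∈ A) N} X := by
  classical
  have h1 : ∀ᶠ X : ℕ in atTop, (κ / 2 + 1) / (κ / 6) ≤ Real.log X := log_atTop.eventually (eventually_ge_atTop _)
  refine (h.and_eventually h1).mono ?_
  rintro X ⟨h2, h3⟩
  rw [div_le_iff₀ (by positivity)] at h3
  have h4 := abel A X
  have h5 : ∑ N ∈ Icc 1 X, fr (· ∈ A) N / ((N : ℝ) + 1) ≤
      logCount {N | κ / 2 ≤ fr (· ∈ A) N} X + κ / 2 * hn X := by
    rw [logCount_eq]
    unfold hn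
    rw [mul_sum, ← sum_add_distrib]
    apply sum_le_sum
    intro N hN
    rw [mem_Icc] at hN
    have hN0 : (0 : ℝ) < N := by exact_mod_cast hN.1
    have e1 : fr (· ∈ A) N / ((N : ℝ) + 1) ≤ fr (· ∈ A) N * (1 / N) := by
      rw [div_eq_mul_one_div]
      apply mul_le_mul_of_nonneg_left _ (fr_nonneg _ _)
      apply one_div_le_one_div_of_le hN0
      linarith
    refine e1.trans ?_
    have e2 : (0 : ℝ) < 1 / N := by positivity
    by_cases h6 : κ / 2 ≤ fr (· ∈ A) N
    · rw [if_pos (show N ∈ {N | κ / 2 ≤ fr (· ∈ A) N} from h6)]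
      have := fr_le_one (· ∈ A) N
      have e3 : fr (· ∈ A) N * (1 / N : ℝ) ≤ 1 * (1 / N) := mul_le_mul_of_nonneg_right this e2.le
      have e4 : 0 ≤ κ / 2 * (1 / N : ℝ) := by positivity
      linarith
    · rw [if_neg (show N ∉ {N | κ / 2 ≤ fr (· ∈ A) N} from h6), zero_add]
      exact mul_le_mul_of_nonneg_right (not_le.1 h6).le e2.le
  have h6 : (X : ℝ) * fr (· ∈ A) X / (X + 1) ≤ 1 := by
    rw [div_le_one (by positivity)]
    have := fr_le_one (· ∈ A) X
    have h7 : (0 : ℝ) ≤ X := by positivity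
    nlinarith
  have h7 := hn_le X
  have h8 : κ / 2 * hn X ≤ κ / 2 * (1 + Real.log X) := mul_le_mul_of_nonneg_left h7 (by positivity)
  nlinarith

/-- arbitrarily large scales -/
lemma large_of (S : Set ℕ) (κ : ℝ) (hκ : 0 < κ) (h : ∃ᶠ X : ℕ in atTop, κ * Real.log X ≤ logCount S X) :
    ∃ᶠ N : ℕ in atTop, N ∈ S := by
  by_contra hcon
  rw [Filter.not_frequently] at hcon
  obtain ⟨L, hL⟩ := Filter.eventually_atTop.1 hcon
  have h1 : ∀ᶠ X : ℕ in atTop, (hn L + 1) / κ ≤ Real.log X := log_atTop.eventually (eventually_ge_atTop _)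
  obtain ⟨X, h2, h3⟩ := (h.and_eventually h1).exists
  rw [div_le_iff₀ hκ] at h3
  have h4 : logCount S X ≤ logCount (Set.Iic L) X := by
    apply logCount_mono
    intro N hN _ _
    by_contra h5
    rw [Set.mem_Iic, not_le] at h5
    exact hL N h5.le hN
  have h5 := logCount_Iic L X
  linarith

lemma infinite_of (P : ℕ → Prop) (c : ℝ) (hc : 0 < c) (h : ∃ᶠ N : ℕ in atTop, c ≤ fr P N) : {n | P n}.Infinite := by
  classical
  intro hfin
  obtain ⟨L, hL⟩ := exists_nat_gt ((hfin.toFinset.card : ℝ) / c)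
  obtain ⟨N, h1, h2⟩ := (h.and_eventually (eventually_ge_atTop (L + 1))).exists
  have hN0 : (0 : ℝ) < N := by exact_mod_cast (by omega : 0 < N)
  unfold fr at h1
  rw [le_div_iff₀ hN0] at h1
  have h3 : ((Icc 1 N).filter P).card ≤ hfin.toFinset.card := by
    apply card_le_card
    intro n hn
    rw [mem_filter] at hn
    rw [Set.Finite.mem_toFinset]
    exact hn.2
  rw [div_lt_iff₀ hc] at hL
  have h4 : (L : ℝ) + 1 ≤ N := by exact_mod_cast h2
  have h5 : (((Icc 1 N).filter P).card : ℝ) ≤ hfin.toFinset.card := by exact_mod_cast h3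
  have h6 : c * N ≤ (hfin.toFinset.card : ℝ) := h1.trans (le_trans (le_of_eq rfl) h5)
  nlinarith

end Pool.Agent.H616.Om
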